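import Mathlib
import Pool.Agent.Work.MP_2e8aec_co.Large

/-!
# The exact value of the monochromatic cover number `COV(2,k)` for infinitely many `k`

For arbitrarily large `k` the number `COV(2,k)` equals `2k-1`: the Gyárfás–Lehel value `2k-2`
fails for infinitely many `k`.
-/

set_option autoImplicit false

namespace Pool.Agent.Results.MP_2e8aec_co.CoverNumber

open Finset

/-- A monochromatic component of an edge colouring `c` of the graph `G`: the vertex set of a
connected component of the spanning subgraph formed by the edges of some colour `i` (a vertex that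
meets no edge of colour `i` is such a component by itself). -/
def IsMonoComponent {V : Type} {G : SimpleGraph V} {k : ℕ} (c : G.EdgeLabeling (Fin k))
    (S : Set V) : Prop :=
  ∃ (i : Fin k) (C : (c.labelGraph i).ConnectedComponent), C.supp = S

/-- The least number of monochromatic components whose union is the vertex set. -/
noncomputable def coverNumber {V : Type} {G : SimpleGraph V} {k : ℕ}
    (c : G.EdgeLabeling (Fin k)) : ℕ :=
  sInf {t : ℕ | ∃ F : Finset (Set V), F.card = t ∧ (∀ S ∈ F, IsMonoComponent c S) ∧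
    ∀ v : V, ∃ S ∈ F, v ∈ S}

/-- The set of the cover numbers of all `k`-colourings of the edges of all complete bipartite
graphs `K_{m,n}` with `m, n ≥ 1`; the greatest element of this set is `COV(2,k)`. -/
def coverNumbers (k : ℕ) : Set ℕ :=
  {t : ℕ | ∃ m n : ℕ, 1 ≤ m ∧ 1 ≤ n ∧
    ∃ c : (completeBipartiteGraph (Fin m) (Fin n)).EdgeLabeling (Fin k), coverNumber c = t}

/-- The elementary cover by `2k-1` monochromatic components. -/
theorem exists_cover {m n k : ℕ} (hm : 1 ≤ m) (hn : 1 ≤ n)
    (c : (completeBipartiteGraph (Fin m) (Fin n)).EdgeLabeling (Fin k)) :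
    ∃ F : Finset (Set (Fin m ⊕ Fin n)), F.card ≤ 2 * k - 1 ∧ (∀ S ∈ F, IsMonoComponent c S) ∧
      ∀ v, ∃ S ∈ F, v ∈ S := by
  classical
  have hadj : ∀ (a : Fin m) (b : Fin n),
      (completeBipartiteGraph (Fin m) (Fin n)).Adj (Sum.inl a) (Sum.inr b) := fun a b => by simp
  let a₀ : Fin m := ⟨0, hm⟩
  let b₀ : Fin n := ⟨0, hn⟩
  let i₀ : Fin k := c.get _ _ (hadj a₀ b₀)
  let F₁ : Finset (Set (Fin m ⊕ Fin n)) :=
    univ.image (fun i => ((c.labelGraph i).connectedComponentMk (Sum.inl a₀)).supp)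
  let F₂ : Finset (Set (Fin m ⊕ Fin n)) :=
    (univ.erase i₀).image (fun i => ((c.labelGraph i).connectedComponentMk (Sum.inr b₀)).supp)
  have hlab : ∀ a b, (c.labelGraph (c.get _ _ (hadj a b))).Adj (Sum.inl a) (Sum.inr b) := by
    intro a b
    rw [SimpleGraph.EdgeLabeling.labelGraph_adj]
    exact ⟨hadj a b, rfl⟩
  refine ⟨F₁ ∪ F₂, ?_, ?_, ?_⟩
  · have h1 : F₁.card ≤ k := by
      refine (card_image_le).trans ?_
      simp
    have h2 : F₂.card ≤ k - 1 := by
      refine (card_image_le).trans ?_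
      rw [card_erase_of_mem (mem_univ _)]
      simp
    have h3 := card_union_le F₁ F₂
    have h4 : 0 < k := (Nat.zero_le _).trans_lt i₀.is_lt
    omega
  · intro S hS
    rcases mem_union.1 hS with h | h
    · obtain ⟨i, -, rfl⟩ := mem_image.1 h
      exact ⟨i, _, rfl⟩
    · obtain ⟨i, -, rfl⟩ := mem_image.1 h
      exact ⟨i, _, rfl⟩
  · rintro (a | b)
    · by_cases hi : c.get _ _ (hadj a b₀) = i₀
      · refine ⟨_, mem_union_left _ (mem_image_of_mem _ (mem_univ i₀)), ?_⟩
        rw [SimpleGraph.ConnectedComponent.mem_supp_iff, SimpleGraph.ConnectedComponent.eq]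
        have h1 : (c.labelGraph i₀).Adj (Sum.inl a) (Sum.inr b₀) := by
          have := hlab a b₀
          rwa [hi] at this
        have h2 : (c.labelGraph i₀).Adj (Sum.inl a₀) (Sum.inr b₀) := hlab a₀ b₀
        exact h1.reachable.trans h2.symm.reachable
      · refine ⟨_, mem_union_right _ (mem_image_of_mem _ (mem_erase.2 ⟨hi, mem_univ _⟩)), ?_⟩
        rw [SimpleGraph.ConnectedComponent.mem_supp_iff, SimpleGraph.ConnectedComponent.eq]
        exact (hlab a b₀).reachable
    · refine ⟨_, mem_union_left _ (mem_image_of_mem _ (mem_univ (c.get _ _ (hadj a₀ b)))), ?_⟩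
      rw [SimpleGraph.ConnectedComponent.mem_supp_iff, SimpleGraph.ConnectedComponent.eq]
      exact (hlab a₀ b).symm.reachable

/-- The same for the cover number. -/
theorem coverNumber_le {m n k : ℕ} (hm : 1 ≤ m) (hn : 1 ≤ n)
    (c : (completeBipartiteGraph (Fin m) (Fin n)).EdgeLabeling (Fin k)) :
    coverNumber c ≤ 2 * k - 1 := by
  obtain ⟨F, hF, h1, h2⟩ := exists_cover hm hn c
  refine le_trans ?_ hF
  exact Nat.sInf_le ⟨F, rfl, h1, h2⟩

/-- For arbitrarily large `k` the maximum `COV(2,k)` of the cover numbers equals `2k-1`. -/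
theorem result (k₀ : ℕ) :
    ∃ k : ℕ, k₀ ≤ k ∧ 2 ≤ k ∧ IsGreatest (coverNumbers k) (2 * k - 1) := by
  classical
  obtain ⟨R, hR₀, hR, hC⟩ := Work.MP_2e8aec_co.exists_counterEx_large k₀
  have hK : Fintype.card (Fin R × Fin R) = R * R := by simp
  obtain ⟨m, n, hm, hn, c₀, hc₀⟩ := Work.MP_2e8aec_co.colouring_of_counterEx hC
  have hK1 : k₀ ≤ Fintype.card (Fin R × Fin R) := by rw [hK]; nlinarith
  have hK2 : 2 ≤ Fintype.card (Fin R × Fin R) := by rw [hK]; nlinarith
  generalize Fintype.card (Fin R × Fin R) = k at c₀ hc₀ hK1 hK2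
  refine ⟨k, hK1, hK2, ?_, ?_⟩
  · -- the colouring
    have hk0 : 0 < k := by omega
    let φ : Fin m ⊕ Fin n → Fin m ⊕ Fin n → Fin k := fun x y =>
      Sum.elim (fun a => Sum.elim (fun _ => ⟨0, hk0⟩) (fun b => c₀ a b) y)
        (fun b => Sum.elim (fun a => c₀ a b) (fun _ => ⟨0, hk0⟩) y) x
    have hφ : ∀ (x y : Fin m ⊕ Fin n)
        (_ : (completeBipartiteGraph (Fin m) (Fin n)).Adj x y), φ y x = φ x y := by
      rintro (a | b) (a' | b') h <;> rfl
    let c : (completeBipartiteGraph (Fin m) (Fin n)).EdgeLabeling (Fin k) :=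
      SimpleGraph.EdgeLabeling.mk (fun x y _ => φ x y) hφ
    have hgraph : ∀ i : Fin k, c.labelGraph i =
        SimpleGraph.fromRel (fun x y : Fin m ⊕ Fin n =>
          ∃ a b, x = Sum.inl a ∧ y = Sum.inr b ∧ c₀ a b = i) := by
      intro i
      ext u v
      rw [SimpleGraph.EdgeLabeling.labelGraph_adj, SimpleGraph.fromRel_adj]
      rcases u with (a | b) <;> rcases v with (a' | b')
      · simp
      · constructor
        · rintro ⟨H, h⟩
          exact ⟨by simp, Or.inl ⟨a, b', rfl, rfl, h⟩⟩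
        · rintro ⟨-, ⟨x, y, h1, h2, h3⟩ | ⟨x, y, h1, h2, h3⟩⟩
          · obtain rfl := Sum.inl.inj h1
            obtain rfl := Sum.inr.inj h2
            exact ⟨by simp, h3⟩
          · cases h1
      · constructor
        · rintro ⟨H, h⟩
          exact ⟨by simp, Or.inr ⟨a', b, rfl, rfl, h⟩⟩
        · rintro ⟨-, ⟨x, y, h1, h2, h3⟩ | ⟨x, y, h1, h2, h3⟩⟩
          · cases h1
          · obtain rfl := Sum.inl.inj h1
            obtain rfl := Sum.inr.inj h2
            exact ⟨by simp, h3⟩
      · simp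
    refine ⟨m, n, hm, hn, c, le_antisymm (coverNumber_le hm hn c) ?_⟩
    refine le_csInf ?_ ?_
    · obtain ⟨F, -, h1, h2⟩ := exists_cover hm hn c
      exact ⟨_, F, rfl, h1, h2⟩
    · rintro t ⟨F, rfl, h1, h2⟩
      -- a representative of every member of the cover
      have hrep : ∀ S : Set (Fin m ⊕ Fin n), ∃ p : Fin k × (Fin m ⊕ Fin n), S ∈ F →
          ∀ v ∈ S, (c.labelGraph p.1).Reachable p.2 v := by
        intro S
        by_cases hS : S ∈ F
        · obtain ⟨i, C, hCS⟩ := h1 S hS
          obtain ⟨u, rfl⟩ := C.exists_rep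
          refine ⟨(i, u), fun _ v hv => ?_⟩
          rw [← hCS, SimpleGraph.ConnectedComponent.mem_supp_iff] at hv
          exact (SimpleGraph.ConnectedComponent.eq.1 hv).symm
        · exact ⟨(⟨0, by omega⟩, Sum.inl ⟨0, hm⟩), fun h => absurd h hS⟩
      choose ρ hρ using hrep
      have h3 := hc₀ (F.image ρ) (by
        intro w
        obtain ⟨S, hS, hw⟩ := h2 w
        refine ⟨ρ S, mem_image_of_mem _ hS, ?_⟩
        rw [← hgraph]
        exact hρ S hS w hw)
      have h4 : (F.image ρ).card ≤ F.card := card_image_le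
      omega
  · rintro t ⟨m', n', hm', hn', c', rfl⟩
    exact coverNumber_le hm' hn' c'

end Pool.Agent.Results.MP_2e8aec_co.CoverNumber
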